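import Pool.Agent.helper88.RQ2.Spec

/-!
# Row rq:MS3 (MP_bb0bb6_co, Q2; spec Pool/Agent/helper88/RQ2/Spec.lean)
-/

set_option autoImplicit false

open Set Matroid RadonMin

namespace RadonQ2

theorem MS3_tt (n r : ℤ) : TT 3 n r = 3 * n - 4 * r := by
  unfold TT
  have h1 : (3 : ℕ).choose 2 = 3 := by decide
  have h2 : (3 + 1 : ℕ).choose 3 = 4 := by decide
  rw [h1, h2]
  push_cast
  ring

/-- the facts for one element -/
theorem MS3_elt {α : Type} (M : Matroid α) [M.Finite] (hs : Simp M) (hg : Good M) (hc : Conn M)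
    (hr : 4 ≤ rk M M.E) (e : α) (he : e ∈ M.E) :
    (M.E.ncard : ℤ) - 1 - rk M M.E ≤ cc (M ＼ {e}) ∧
    3 * ((M.E.ncard : ℤ) - 1) - 4 * rk M M.E ≤ cc (M ＼ {e}) ∧
    (M.E.ncard : ℤ) - rk M M.E ≤ ce M e ∧ cc M = cc (M ＼ {e}) + ce M e := by
  have hEfin : M.E.Finite := M.ground_finite
  have hn4 : 4 ≤ M.E.ncard := hr.trans (rk_le_ncard le_rfl)
  obtain ⟨g, hgE, hge⟩ : ∃ g ∈ M.E, g ≠ e := by
    by_contra hcon
    push Not at hcon
    have h1 : M.E ⊆ {e} := fun x hx => hcon x hx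
    have h2 := ncard_le_ncard h1 (finite_singleton e)
    rw [ncard_singleton] at h2
    omega
  obtain ⟨C0, hC0, he0, -⟩ := hc.exists_common_circuit he hgE hge.symm
  have hrk := rk_sdiff_singleton_of_circuit hC0 he0
  have hcard : ((M ＼ {e}).E.ncard : ℤ) = (M.E.ncard : ℤ) - 1 := by
    rw [delete_ground, ncard_sdiff_singleton_of_mem he]
    push_cast [Nat.cast_sub (show 1 ≤ M.E.ncard by omega)]
    ring
  have hrk2 : rk (M ＼ {e}) (M ＼ {e}).E = rk M M.E := by
    rw [delete_ground, rk_delete M le_rfl, hrk]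
  have h2 := T_bound (M := M ＼ {e}) (hs.delete _) (hg.delete _) 2
  have h3 := T_bound (M := M ＼ {e}) (hs.delete _) (hg.delete _) 3
  rw [hcard, hrk2] at h2 h3
  have c1 : (2 : ℕ).choose 2 = 1 := by decide
  have c2 : (2 + 1 : ℕ).choose 3 = 1 := by decide
  have c3 : (3 : ℕ).choose 2 = 3 := by decide
  have c4 : (3 + 1 : ℕ).choose 3 = 4 := by decide
  have c5 : (1 + 1 : ℕ).choose 2 = 1 := by decide
  rw [c1, c2] at h2
  rw [c3, c4] at h3
  have h4 := ce_lower hs hc he 1
  rw [c5] at h4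
  refine ⟨?_, ?_, ?_, cc_eq_delete_add_ce M e⟩
  · push_cast at h2
    linarith
  · push_cast at h3
    linarith
  · push_cast at h4
    linarith

theorem MS3_circ {α : Type} (M : Matroid α) [M.Finite] (hs : Simp M) (hr : rk M M.E = 4)
    (hn : M.E.ncard = 7) (hcc : ∀ e ∈ M.E, cc (M ＼ {e}) = 2) (C : Set α) (hC : M.IsCircuit C) :
    C.ncard ≤ 3 := by
  have hEfin : M.E.Finite := M.ground_finite
  have hCE := hC.subset_ground
  have h1 : C.ncard ≤ 5 := by
    have h2 := rk_circuit hC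
    have h3 := rk_mono M hCE
    omega
  obtain ⟨e, heE, heC⟩ : ∃ e ∈ M.E, e ∉ C := by
    by_contra hcon
    push Not at hcon
    have h4 := ncard_le_ncard (fun x hx => hcon x hx : M.E ⊆ C) (hEfin.subset hCE)
    omega
  have hC1 : (M ＼ {e}).IsCircuit C := by
    rw [delete_isCircuit_iff, disjoint_singleton_right]
    exact ⟨hC, heC⟩
  have h5 := hcc e heE
  unfold cc at h5
  obtain ⟨X, Y, hXY, hset⟩ := ncard_eq_two.mp h5
  obtain ⟨C', hC', hne, honly⟩ : ∃ C', (M ＼ {e}).IsCircuit C' ∧ C ≠ C' ∧ ∀ D, (M ＼ {e}).IsCircuit D → D = C ∨ D = C' := by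
    have hmemX : X ∈ {C : Set α | (M ＼ {e}).IsCircuit C} := by rw [hset]; simp
    have hmemY : Y ∈ {C : Set α | (M ＼ {e}).IsCircuit C} := by rw [hset]; simp
    have hmemC : C ∈ {C : Set α | (M ＼ {e}).IsCircuit C} := hC1
    have hmemC2 := hmemC
    rw [hset] at hmemC2
    rcases hmemC2 with h | h
    · refine ⟨Y, hmemY, ?_, ?_⟩
      · rw [h]; exact hXY
      · intro D hD
        have hD2 : D ∈ {C : Set α | (M ＼ {e}).IsCircuit C} := hD
        rw [hset] at hD2
        rcases hD2 with h' | h'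
        · left; rw [h', h]
        · right; exact h'
    · have h : C = Y := h
      refine ⟨X, hmemX, ?_, ?_⟩
      · rw [h]; exact hXY.symm
      · intro D hD
        have hD2 : D ∈ {C : Set α | (M ＼ {e}).IsCircuit C} := hD
        rw [hset] at hD2
        rcases hD2 with h' | h'
        · right; exact h'
        · left; rw [h]; exact h'
  have hdisj : Disjoint C C' := by
    rw [Set.disjoint_left]
    intro x hx hx'
    obtain ⟨D, hDsub, hD⟩ := hC1.elimination hC' hne x
    have hxD : x ∉ D := fun h => (hDsub h).2 rfl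
    rcases honly D hD with h | h
    · rw [h] at hxD; exact hxD hx
    · rw [h] at hxD; exact hxD hx'
  have hC'M : M.IsCircuit C' := by
    rw [delete_isCircuit_iff] at hC'
    exact hC'.1
  have hsub : C ∪ C' ⊆ M.E \ {e} := by
    have h6 := hC1.subset_ground
    have h7 := hC'.subset_ground
    rw [delete_ground] at h6 h7
    exact union_subset h6 h7
  have h8 := ncard_le_ncard hsub (hEfin.subset sdiff_subset)
  rw [ncard_union_eq hdisj (hEfin.subset hCE) (hEfin.subset hC'M.subset_ground), ncard_sdiff_singleton_of_mem heE, hn] at h8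
  have h9 := hs C' hC'M
  omega

theorem MS3_proof (hMSUM : MSUM_stmt) : MS3_stmt := by
  intro α M _ hs hg hc hr
  have hEfin : M.E.Finite := M.ground_finite
  have hn4 : 4 ≤ M.E.ncard := hr.trans (rk_le_ncard le_rfl)
  rw [MS3_tt]
  obtain ⟨e0, he0⟩ : M.E.Nonempty := by
    rw [← ncard_pos hEfin]; omega
  obtain ⟨a1, a2, a3, a4⟩ := MS3_elt M hs hg hc hr e0 he0
  by_contra hcon
  push Not at hcon
  have hn7 : M.E.ncard = 7 ∧ rk M M.E = 4 := by omega
  have hcc5 : cc M ≤ 5 := by omega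
  have hall : ∀ e ∈ M.E, cc (M ＼ {e}) = 2 ∧ 3 ≤ ce M e := by
    intro e he
    obtain ⟨b1, b2, b3, b4⟩ := MS3_elt M hs hg hc hr e he
    omega
  have hb := hMSUM α M 3 3 (fun C hC => MS3_circ M hs hn7.2 hn7.1 (fun e he => (hall e he).1) C hC) (fun e he => (hall e he).2)
  omega

end RadonQ2
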